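import Pool.Agent.Q210.HT.Main

/-!
# Radial limits in `H^∞(T^∞)` with radii decreasing in the index

`TInf = ℕ → UnitAddCircle` is the infinite torus (the point `θ` stands for `(e^{2πiθ_n})_n`), `m`
its Haar measure, `HInfty` the space `H^∞(T^∞)`, and `radialValue f r θ` the Poisson integral of
`f` at the point `(r_n e^{2πiθ_n})_n`, for a finitely supported vector `r` of radii.
-/

open MeasureTheory Filter Topology Q210.HT

namespace Pool.Agent.Results.MP_919c6d_an.DecreasingRadii

/-- There is `f ∈ H^∞(T^∞)` such that for almost every boundary point there is a radial approach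
(finitely supported radii, nondecreasing in `k` with limit `1`, decreasing in `n`) along which
convergence to the boundary value fails. -/
theorem result : ∃ f : TInf → ℂ, HInfty f ∧ ∀ᵐ θ ∂m, ∃ r : ℕ → ℕ →₀ ℝ,
    (∀ k n, 0 ≤ r k n ∧ r k n < 1) ∧ (∀ n, Monotone fun k => r k n) ∧
    (∀ n, Tendsto (fun k => r k n) atTop (𝓝 1)) ∧ (∀ k n, r k (n + 1) ≤ r k n) ∧
    ¬ Tendsto (fun k => radialValue f (r k) θ) atTop (𝓝 (f θ)) :=
  pointDependent

end Pool.Agent.Results.MP_919c6d_an.DecreasingRadii
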